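import Pool.Agent.Work.MP_c07f0d_lc.KFinal

/-!
# All Kneser-Lovász tautologies have quasi-polynomial Frege proofs

The definitions used in the statement are in `Pool.Agent.Work.MP_c07f0d_lc.Defs` (formulas, Frege
systems, sizes) and `Pool.Agent.Work.MP_c07f0d_lc.KneserDefs` (the Kneser-Lovász tautologies).
-/

namespace Pool.Agent.Results.MP_c07f0d_lc.KneserAll

open FregeEF

/-- For every Frege system there is a constant `C` such that for all `n ≥ 2k ≥ 2` the
Kneser-Lovász tautology for `n` and `k`, of size `s`, has a Frege proof of size at most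
`2 ^ (log₂ s + 2) ^ C`. -/
theorem result (F : FregeSystem) : ∃ C : ℕ, ∀ n k : ℕ, 1 ≤ k → 2 * k ≤ n →
    ∃ L : List (Fm (Finset ℕ × ℕ)), F.IsProof (kneser n k) L ∧
      lsize L ≤ 2 ^ (Nat.log 2 (kneser n k).size + 2) ^ C :=
  kneser_all F

end Pool.Agent.Results.MP_c07f0d_lc.KneserAll
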