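import Pool.Agent.Work.MP_c07f0d_lc.SX.FinalE

/-!
# Extended Frege proofs are exponentially shorter than Frege proofs with subquadratic lines

The definitions used in the statement are in `Pool.Agent.Work.MP_c07f0d_lc.Defs` (formulas, sizes,
rules, Frege systems, extended Frege proofs), in `Pool.Agent.Work.MP_c07f0d_lc.AC.ACDefs` (the
depth of a formula above its small subformulas) and below.
-/

namespace Pool.Agent.Results.MP_c07f0d_lc.SmallLines

open FregeEF AcFrege

/-- `χ` is a subformula of the given formula (or this formula itself). -/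
def IsSub {α : Type} (χ : Fm α) : Fm α → Prop
  | .var x => χ = .var x
  | .bot => χ = .bot
  | .neg a => χ = .neg a ∨ IsSub χ a
  | .and a b => χ = .and a b ∨ IsSub χ a ∨ IsSub χ b
  | .or a b => χ = .or a b ∨ IsSub χ a ∨ IsSub χ b
  | .imp a b => χ = .imp a b ∨ IsSub χ a ∨ IsSub χ b

/-- The number of the different subformulas of the lines of `L`. -/
noncomputable def nsub {α : Type} (L : List (Fm α)) : ℕ := Set.ncard {χ | ∃ φ ∈ L, IsSub χ φ}

theorem isSub_iff {α : Type} [DecidableEq α] {χ : Fm α} : ∀ {φ : Fm α}, IsSub χ φ ↔ χ ∈ subf φ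
  | .var x => by simp [IsSub, subf]
  | .bot => by simp [IsSub, subf]
  | .neg a => by simp [IsSub, subf, isSub_iff (φ := a)]
  | .and a b => by simp [IsSub, subf, isSub_iff (φ := a), isSub_iff (φ := b)]
  | .or a b => by simp [IsSub, subf, isSub_iff (φ := a), isSub_iff (φ := b)]
  | .imp a b => by simp [IsSub, subf, isSub_iff (φ := a), isSub_iff (φ := b)]

theorem nsub_eq {α : Type} [DecidableEq α] (L : List (Fm α)) : nsub L = (subfL L).card := by
  unfold nsub
  rw [← Set.ncard_coe_finset]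
  congr 1
  ext χ
  simp only [Set.mem_setOf_eq, isSub_iff, Finset.mem_coe, mem_subfL]

/-- There is a sequence of tautologies `τ n`, with `n ≤ |τ n| ≤ 12 (n + 1)`, such that the
following holds, where `s = |τ n|`.  For every Frege system `F` there is `C` such that every `τ n`
has an extended Frege proof of size at most `C s log s` and a Frege proof of size at most
`C s ^ 2 log s`.  For every `ε > 0` there is `δ > 0` such that for every `F`, if `n` is large:
every extended Frege proof of `τ n` with at most `s ^ δ` extension axioms has size at least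
`s ^ (2 - ε)`; for every `d`, every extended Frege proof of `τ n` with at most `s ^ (δ / 5 ^ d)`
extension axioms, all of whose lines have depth at most `d` above their subformulas of size at most
`s ^ (2 - ε)` (for instance `d = 0` if all lines have size at most `s ^ (2 - ε)`), has more than
`2 ^ (s ^ (δ / 5 ^ d))` different subformulas.  Frege proofs are the extended Frege proofs without
extension axioms. -/
theorem result : ∃ τ : ℕ → Fm ℕ,
    (∀ n, n ≤ (τ n).size ∧ (τ n).size ≤ 12 * (n + 1)) ∧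
    (∀ n (v : ℕ → Prop), (τ n).eval v) ∧
    (∀ F : FregeSystem, ∃ C : ℕ, ∀ n,
      (∃ L E, F.IsEFProof (τ n) L E ∧ lsize L ≤ C * ((τ n).size * Nat.log 2 (τ n).size)) ∧
      (∃ L, F.IsProof (τ n) L ∧ lsize L ≤ C * ((τ n).size ^ 2 * Nat.log 2 (τ n).size))) ∧
    (∀ (F : FregeSystem) n L, F.IsProof (τ n) L ↔ F.IsEFProof (τ n) L []) ∧
    ∀ ε : ℝ, 0 < ε → ∃ δ : ℝ, 0 < δ ∧ ∀ F : FregeSystem, ∃ n₀ : ℕ, ∀ n ≥ n₀,
      ∀ (L : List (Fm ℕ)) (E : List (ℕ × Fm ℕ)), F.IsEFProof (τ n) L E →
        ((E.length : ℝ) ≤ ((τ n).size : ℝ) ^ δ → ((τ n).size : ℝ) ^ (2 - ε) ≤ lsize L) ∧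
        ∀ d : ℕ, (E.length : ℝ) ≤ ((τ n).size : ℝ) ^ (δ / 5 ^ d) →
          (∀ φ ∈ L, depth ⌊((τ n).size : ℝ) ^ (2 - ε)⌋₊ φ ≤ d) →
          (2 : ℝ) ^ (((τ n).size : ℝ) ^ (δ / 5 ^ d)) < nsub L := by
  simp only [nsub_eq]
  refine ⟨SizeSep.tauX, fun n => ⟨?_, SizeSep.tauX_le n⟩, SizeSep.tauX_taut, fun F =>
    ⟨200 * F.K, fun n => ⟨SizeSep.tauX_ef F n, SizeSep.tauX_frege F n⟩⟩,
      fun F n L => SizeSep.isProof_iff F _ L, SizeSep.tauX_few2⟩
  have := SizeSep.tauX_ge n
  omega

end Pool.Agent.Results.MP_c07f0d_lc.SmallLines
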