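import Pool.Agent.Work.MP_c07f0d_lc.SOS.FinalSos

/-!
# Bounded-depth Frege refutations above formulas of nearly quadratic size, with algebraic inferences

The definitions used in the statement are in `Pool.Agent.Work.MP_c07f0d_lc.Defs` (formulas, sizes,
rules, derivations, Frege systems), in `Pool.Agent.Work.MP_c07f0d_lc.LS.LSDefs` (balanced parity
formulas), in `Pool.Agent.Work.MP_c07f0d_lc.TL.GDefs` (the parity contradictions on the grids), in
`Pool.Agent.Work.MP_c07f0d_lc.AC.ACDefs` (the depth of a formula above its small subformulas), in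
`Pool.Agent.Work.MP_c07f0d_lc.SOS.SosDefs` (sum-of-squares inferences, algebraic inferences and the
derivations which use them) and below.
-/

namespace Pool.Agent.Results.MP_c07f0d_lc.SosDepth

open FregeEF AcFrege SosFrege
open _root_.GridLine (GE gridAxioms)

/-- The number of the variables of the contradiction on the `D`-dimensional grid of side `M`. -/
def nvar (D M : ℕ) : ℕ := Fintype.card (GE D M)

/-- `L` is a refutation in the Frege system `F` of the list of all constraints. -/
def IsRefutation (F : FregeSystem) (D M : ℕ) (L : List (Fm (GE D M))) : Prop :=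
  IsDeriv F.rules (gridAxioms D M) L ∧ Fm.bot ∈ L

/-- `χ` is a subformula of the given formula (or this formula itself). -/
def IsSub {α : Type} (χ : Fm α) : Fm α → Prop
  | .var x => χ = .var x
  | .bot => χ = .bot
  | .neg a => χ = .neg a ∨ IsSub χ a
  | .and a b => χ = .and a b ∨ IsSub χ a ∨ IsSub χ b
  | .or a b => χ = .or a b ∨ IsSub χ a ∨ IsSub χ b
  | .imp a b => χ = .imp a b ∨ IsSub χ a ∨ IsSub χ b

/-- The number of the different subformulas of the lines of `L`. -/
noncomputable def nsub {α : Type} (L : List (Fm α)) : ℕ := Set.ncard {χ | ∃ φ ∈ L, IsSub χ φ}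

/-- The set `Φ` of formulas is closed under subformulas. -/
def SubformulaClosed {α : Type} (Φ : Finset (Fm α)) : Prop :=
  (∀ a, Fm.neg a ∈ Φ → a ∈ Φ) ∧ (∀ a b, Fm.and a b ∈ Φ → a ∈ Φ ∧ b ∈ Φ) ∧
    (∀ a b, Fm.or a b ∈ Φ → a ∈ Φ ∧ b ∈ Φ) ∧ (∀ a b, Fm.imp a b ∈ Φ → a ∈ Φ ∧ b ∈ Φ)

/-- There is a refutation of size `T` and depth `d` above formulas of size `s`, which uses the rules
of `F`, sum-of-squares inferences, and algebraic inferences over arbitrary commutative rings in
which `2` is not nilpotent: there is a set of at most `T` formulas, closed under subformulas, such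
that all its members have depth at most `d` above their subformulas of size at most `s`, all lines
belong to it, and the polynomials which are used in an inference have variables in it and
altogether at most `T` monomials. -/
def HasAlgRefutation (F : FregeSystem) (D M s d T : ℕ) : Prop :=
  ∃ (Φ : Finset (Fm (GE D M))) (L : List (Fm (GE D M))), SubformulaClosed Φ ∧ Φ.card ≤ T ∧
    (∀ φ ∈ Φ, depth s φ ≤ d) ∧ (∀ φ ∈ L, φ ∈ Φ) ∧
    IsAlgDeriv F.rules (gridAxioms D M) Φ T L ∧ Fm.bot ∈ L

theorem isSub_iff {α : Type} [DecidableEq α] {χ : Fm α} : ∀ {φ : Fm α}, IsSub χ φ ↔ χ ∈ subf φ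
  | .var x => by simp [IsSub, subf]
  | .bot => by simp [IsSub, subf]
  | .neg a => by simp [IsSub, subf, isSub_iff (φ := a)]
  | .and a b => by simp [IsSub, subf, isSub_iff (φ := a), isSub_iff (φ := b)]
  | .or a b => by simp [IsSub, subf, isSub_iff (φ := a), isSub_iff (φ := b)]
  | .imp a b => by simp [IsSub, subf, isSub_iff (φ := a), isSub_iff (φ := b)]

theorem nsub_eq {α : Type} [DecidableEq α] (L : List (Fm α)) : nsub L = (subfL L).card := by
  unfold nsub
  rw [← Set.ncard_coe_finset]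
  congr 1
  ext χ
  simp only [Set.mem_setOf_eq, isSub_iff, Finset.mem_coe, mem_subfL]

/-- A derivation is a derivation with algebraic inferences. -/
theorem algDeriv_of_deriv {α : Type} {R : List Rule} {Γ : List (Fm α)} (Φ : Finset (Fm α)) (T : ℕ)
    {L : List (Fm α)} (h : IsDeriv R Γ L) : IsAlgDeriv R Γ Φ T L := by
  induction h with
  | nil => exact .nil
  | hyp _ h ih => exact .hyp ih h
  | step _ h ih => exact .step ih h

/-- The set of the subformulas of the lines is closed under subformulas. -/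
theorem closed_subfL {α : Type} [DecidableEq α] (L : List (Fm α)) : SubformulaClosed (subfL L) :=
  ⟨(subClosed_subfL L).neg, (subClosed_subfL L).and, (subClosed_subfL L).or,
    (subClosed_subfL L).imp⟩

/-- For every `ε` with `0 < ε < 1` there are a dimension `D`, an exponent `v` and `δ > 0` such that
the parity contradictions on the `D`-dimensional grids of side `u ^ v`, in `n` variables, have the
following properties for every Frege system `F`, some `c` and all `u` with `c ≤ u`.  Every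
constraint has size at most `c`, and all constraints together have size at most `c * n`.  There are
Frege refutations in `F` with `O(n ^ 3)` lines, each of size `O(n ^ 2)`.  But for every `d` with
`c ^ 5 ^ d ≤ u`, every refutation in `F` in which all lines have depth at most `d` above their
subformulas of size at most `n ^ (2 - ε)` has more than `2 ^ (n ^ (δ / 5 ^ d))` different
subformulas, and every refutation of this depth with Frege rules, sum-of-squares inferences and
algebraic inferences has size more than `2 ^ (n ^ (δ / 5 ^ d))`. -/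
theorem result (ε : ℝ) (h0 : 0 < ε) (h1 : ε < 1) :
    ∃ (D v : ℕ) (δ : ℝ), 0 < δ ∧ ∀ F : FregeSystem, ∃ c : ℕ, ∀ u : ℕ, c ≤ u →
      (∀ φ ∈ gridAxioms D (u ^ v), φ.size ≤ c) ∧
      lsize (gridAxioms D (u ^ v)) ≤ c * nvar D (u ^ v) ∧
      (∃ L, IsRefutation F D (u ^ v) L ∧ L.length ≤ c * nvar D (u ^ v) ^ 3 ∧
        ∀ φ ∈ L, φ.size ≤ c * nvar D (u ^ v) ^ 2) ∧
      (∀ d : ℕ, c ^ 5 ^ d ≤ u →
        (∀ L, IsRefutation F D (u ^ v) L →
          (∀ φ ∈ L, depth ⌊(nvar D (u ^ v) : ℝ) ^ (2 - ε)⌋₊ φ ≤ d) →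
          (2 : ℝ) ^ ((nvar D (u ^ v) : ℝ) ^ (δ / 5 ^ d)) < nsub L) ∧
        (∀ T : ℕ, HasAlgRefutation F D (u ^ v) ⌊(nvar D (u ^ v) : ℝ) ^ (2 - ε)⌋₊ d T →
          (2 : ℝ) ^ ((nvar D (u ^ v) : ℝ) ^ (δ / 5 ^ d)) < T)) := by
  obtain ⟨D, v, δ, hδ, h⟩ := main_sos ε h0 h1
  refine ⟨D, v, δ, hδ, fun F => ?_⟩
  obtain ⟨c, hc⟩ := h F
  refine ⟨c, fun u hu => ?_⟩
  obtain ⟨k1, k2, ⟨L, k3, k4, k5⟩, k6⟩ := hc u hu
  have key : ∀ d : ℕ, c ^ 5 ^ d ≤ u → ∀ T : ℕ,
      HasAlgRefutation F D (u ^ v) ⌊(nvar D (u ^ v) : ℝ) ^ (2 - ε)⌋₊ d T →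
      (2 : ℝ) ^ ((nvar D (u ^ v) : ℝ) ^ (δ / 5 ^ d)) < T := by
    rintro d hd T ⟨Φ, L, h1, h2, h3, h4, h5, h6⟩
    exact k6 d hd T Φ ⟨h1.1, h1.2.1, h1.2.2.1, h1.2.2.2⟩ h2 h3 L h4 h5 h6
  refine ⟨k1, k2, ⟨L, ⟨k3, k4⟩, k5⟩, fun d hd => ⟨fun L hL hdepth => ?_, key d hd⟩⟩
  rw [nsub_eq]
  refine key d hd _ ⟨subfL L, L, closed_subfL L, le_rfl, fun χ hχ => ?_,
    fun φ hφ => mem_subfL_of_mem hφ, algDeriv_of_deriv _ _ hL.1, hL.2⟩
  obtain ⟨φ, hφ, h⟩ := mem_subfL.1 hχ
  exact (depth_le_of_mem_subf h).trans (hdepth φ hφ)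

end Pool.Agent.Results.MP_c07f0d_lc.SosDepth
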