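import Pool.Agent.Work.MP_c07f0d_lc.SD.Dual

/-!
# Space and length of Frege refutations against the degree of sum-of-squares refutations

The definitions used in the statement are in `Pool.Agent.Work.MP_c07f0d_lc.Defs` (formulas, rules,
Frege systems), in `Pool.Agent.Work.MP_c07f0d_lc.SD.RunDef` (refutations with memory) and in
`Pool.Agent.Work.MP_c07f0d_lc.SD.SosDefs` (sum-of-squares refutations).
-/

namespace Pool.Agent.Results.MP_c07f0d_lc.SpaceDegree

open FregeEF

/-- For every Frege system `F` and every `ε > 0` there is `C` such that, if `F` refutes a finite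
list `Γ` of formulas of size at most `a` in finitely many variables in `T` steps with at most `s`
symbols in memory at any time, then `Γ` has a sum-of-squares refutation of degree `2 * d` with
`d ≤ s ^ (1 / 2 + ε) * ((a + 2) * log (T + 2)) ^ C`. -/
theorem result (F : FregeSystem) (ε : ℝ) (hε : 0 < ε) :
    ∃ C : ℕ, ∀ (ι : Type) [Finite ι] (Γ : List (Fm ι)) (a s T : ℕ) (M : List (Fm ι)),
      (∀ φ ∈ Γ, φ.size ≤ a) → Run F.rules Γ s T M → Fm.bot ∈ M →
      ∃ d : ℕ, (d : ℝ) ≤ (s : ℝ) ^ (1 / 2 + ε) * ((a + 2) * Real.log (T + 2)) ^ C ∧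
        SosRefutes Γ d := by
  obtain ⟨C, hC⟩ := GridLine.space_sos F ε hε
  refine ⟨C, fun ι _ Γ a s T M h1 h2 h3 => ?_⟩
  classical
  haveI := Fintype.ofFinite ι
  exact hC ι Γ a s T M h1 h2 h3

end Pool.Agent.Results.MP_c07f0d_lc.SpaceDegree
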